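import Pool.Agent.Y120.H.Res

/-!
# Values of G-functions and logarithms of integers: all relations of bounded degree are specialisations of
functional relations

The periods of a family of motives over `ℚ(x)` near a degenerate fibre `x = 0` are polynomials in `log x`, in
G-functions `h_j(x)` and in constants (the periods of the limit motive). For almost all fibres `x = 1 / t` all
algebraic relations of bounded degree, the constants being arbitrary, come from functional relations.
-/

set_option autoImplicit false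

open PowerSeries

namespace Pool.Agent.Results.MP_5d33ca_ag.FamilyRelations

/-- an integer polynomial as a power series with rational coefficients -/
noncomputable def toQ (P : Polynomial ℤ) : PowerSeries ℚ := ((P.map (Int.castRingHom ℚ) : Polynomial ℚ) : PowerSeries ℚ)

/-- the power series `P(u^e)` -/
noncomputable def atPow (e : ℕ) (P : Polynomial ℤ) : PowerSeries ℂ :=
  ((Polynomial.expand ℂ e (P.map (Int.castRingHom ℂ)) : Polynomial ℂ) : PowerSeries ℂ)

/-- the matrices `G_s` over `ℤ[x]` with `T^s y^(s) = G_s y` for all solutions `y` of `T y' = A y` -/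
noncomputable def iter {r : ℕ} (T : Polynomial ℤ) (A : Fin r → Fin r → Polynomial ℤ) : ℕ → Fin r → Fin r → Polynomial ℤ
  | 0 => fun i j => if i = j then 1 else 0
  | s + 1 => fun i j => T * Polynomial.derivative (iter T A s i j) + ∑ l, iter T A s i l * A l j -
      (s : Polynomial ℤ) * (Polynomial.derivative T * iter T A s i j)

/-- The system `T y' = A y` has a fundamental matrix of solutions of the form `u^(-M) ∑_n Φ_n(u) (log u)^n` with
`u^e = x` and convergent power series `Φ_n`: the point `0` is a regular singularity with rational exponents. -/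
def QuasiUnipotent {r : ℕ} (T : Polynomial ℤ) (A : Fin r → Fin r → Polynomial ℤ) : Prop :=
  ∃ (e M : ℕ) (K : ℝ) (Φ : Matrix (Fin r) (Fin r) (Polynomial (PowerSeries ℂ))), 1 ≤ e ∧ Φ.det ≠ 0 ∧
    (∀ i j n m, ‖coeff m ((Φ i j).coeff n)‖ ≤ K ^ (m + 1)) ∧
    ∀ i j n, atPow e T * (X * PowerSeries.derivative ℂ ((Φ i j).coeff n) +
        ((n : PowerSeries ℂ) + 1) * (Φ i j).coeff (n + 1) - (M : PowerSeries ℂ) * (Φ i j).coeff n) =
      (e : PowerSeries ℂ) * X ^ e * ∑ l, atPow e (A i l) * (Φ l j).coeff n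

/-- `h_1, ..., h_r` are G-functions with rational coefficients which solve the differential system `T y' = A y`, with
the conditions of Siegel and Galochkin, and the system is regular with rational exponents at `0`. -/
structure GFamily {r : ℕ} (T : Polynomial ℤ) (A : Fin r → Fin r → Polynomial ℤ) (h : Fin r → PowerSeries ℚ) : Prop where
  /-- the denominator is not zero -/
  T_ne : T ≠ 0
  /-- the differential equations -/
  ode : ∀ i, toQ T * PowerSeries.derivative ℚ (h i) = ∑ j, toQ (A i j) * h j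
  /-- the coefficients have geometric growth -/
  size : ∃ C : ℝ, ∀ i m, |((coeff m (h i) : ℚ) : ℝ)| ≤ C ^ (m + 1)
  /-- the common denominators of the coefficients have geometric growth -/
  den : ∃ C : ℝ, ∀ m : ℕ, ∃ d : ℕ, 0 < d ∧ (d : ℝ) ≤ C ^ (m + 1) ∧ ∀ i, ∀ j ≤ m, ∃ a : ℤ, (d : ℚ) * coeff j (h i) = a
  /-- Galochkin's condition: the common denominators of the matrices `G_s / s!` have geometric growth -/
  galochkin : ∃ C : ℝ, ∀ m : ℕ, ∃ d : ℕ, 0 < d ∧ (d : ℝ) ≤ C ^ (m + 1) ∧ ∀ s ≤ m, ∀ i j,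
    ∃ H : Polynomial ℤ, (d : Polynomial ℤ) * iter T A s i j = (s.factorial : Polynomial ℤ) * H
  /-- the local exponents at `0` are rational and the singularity is regular -/
  regular : QuasiUnipotent T A

/-- the point with the coordinates `log t_i` and `h_{i,j}(1 / t_i)` -/
noncomputable def val {k : ℕ} {r : Fin k → ℕ} (h : ∀ i, Fin (r i) → PowerSeries ℚ) (t : Fin k → ℕ) :
    (Σ i, Option (Fin (r i))) → ℂ
  | ⟨i, none⟩ => ((Real.log (t i) : ℝ) : ℂ)
  | ⟨i, some j⟩ => ((∑' m : ℕ, ((coeff m (h i j) : ℚ) : ℝ) * (1 / (t i : ℝ)) ^ m : ℝ) : ℂ)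

/-- specialisation at `x = 1 / t` -/
noncomputable def spec (t : ℕ) : Polynomial ℚ →+* ℂ := (algebraMap ℚ ℂ).comp (Polynomial.evalRingHom (1 / (t : ℚ)))

/-- The ideal generated by the specialisations at `x = 1 / t_i` of the polynomial relations `R(x, h_i(x)) = 0` of
degree `≤ δ` in `h_i` with coefficients in `ℚ[x]`. -/
noncomputable def relIdeal (δ : ℕ) {k : ℕ} {r : Fin k → ℕ} (h : ∀ i, Fin (r i) → PowerSeries ℚ) (t : Fin k → ℕ) :
    Ideal (MvPolynomial (Σ i, Option (Fin (r i))) ℂ) :=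
  Ideal.span {Q | ∃ (i : Fin k) (R : MvPolynomial (Fin (r i)) (Polynomial ℚ)), R.totalDegree ≤ δ ∧
    MvPolynomial.aeval (h i) R = 0 ∧ Q = MvPolynomial.rename (fun j => ⟨i, some j⟩) (MvPolynomial.map (spec (t i)) R)}

theorem iter_eq {r : ℕ} (T : Polynomial ℤ) (A : Fin r → Fin r → Polynomial ℤ) (s : ℕ) :
    iter T A s = Pool.Agent.Y120.GH.itm T A s := by
  induction s with
  | zero => rfl
  | succ s ih =>
    funext i j
    rw [iter, Pool.Agent.Y120.GH.itm, ih]

theorem qu_eq {r : ℕ} {T : Polynomial ℤ} {A : Fin r → Fin r → Polynomial ℤ} (h : QuasiUnipotent T A) :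
    Pool.Agent.Y120.GH.QU0 T A := by
  obtain ⟨e, M, K, Φ, he, hdet, hc, heq⟩ := h
  have he0 : e ≠ 0 := by omega
  refine ⟨e, he0, M, K, Φ, hc, fun i j n => ?_, hdet⟩
  have h1 := heq i j n
  simp only [atPow] at h1
  rw [Pool.Agent.Y120.GH.expand_poly he0]
  simp only [Pool.Agent.Y120.GH.expand_poly he0]
  exact h1

theorem val_eq {k : ℕ} {r : Fin k → ℕ} (h : ∀ i, Fin (r i) → PowerSeries ℚ) (t : Fin k → ℕ) :
    val h t = Pool.Agent.Y120.GH.valpt h t := by
  funext v
  obtain ⟨i, _ | j⟩ := v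
  · rfl
  · rfl

/-- Let `h_i = (h_{i,1}, ..., h_{i,r_i})`, `1 ≤ i ≤ k`, be families of G-functions with rational coefficients. For
every box `∏ (x_i, x_i + N]`, for all but `C N^(k-1) ∑_i (1 + N / (x_i + N)^c)` integral points `t` of the box every
polynomial relation of degree `≤ δ` between the numbers `log t_i` and `h_{i,j}(1 / t_i)` with coefficients in the
given `ℚ`-space `V` of complex numbers of dimension `≤ D` lies in the ideal which is generated by the specialisations
of the functional relations. -/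
theorem result (k δ D : ℕ) (r : Fin k → ℕ) (T : Fin k → Polynomial ℤ) (A : ∀ i, Fin (r i) → Fin (r i) → Polynomial ℤ)
    (h : ∀ i, Fin (r i) → PowerSeries ℚ) (hG : ∀ i, GFamily (T i) (A i) (h i)) :
    ∃ c C : ℝ, 0 < c ∧ 0 ≤ C ∧ ∀ V : Submodule ℚ ℂ, Module.Finite ℚ V → Module.finrank ℚ V ≤ D →
    ∀ (x : Fin k → ℕ) (N : ℕ), 1 ≤ N →
    (({t : Fin k → ℕ | (∀ i, x i < t i ∧ t i ≤ x i + N) ∧ ∃ P : MvPolynomial (Σ i, Option (Fin (r i))) ℂ,
      P.totalDegree ≤ δ ∧ (∀ s, P.coeff s ∈ V) ∧ MvPolynomial.aeval (val h t) P = 0 ∧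
      P ∉ relIdeal δ h t}.ncard : ℕ) : ℝ) ≤ C * (N : ℝ) ^ (k - 1) * ∑ i, (1 + N / ((x i : ℝ) + N) ^ c) := by
  classical
  obtain ⟨c, C, hc, hC, hmain⟩ := Pool.Agent.Y120.GH.tuples k δ D r h (fun i => (hG i).size) (fun i =>
    Pool.Agent.Y120.GH.family_main (hG i).T_ne (hG i).ode (hG i).size (hG i).den (by
      obtain ⟨C, hC⟩ := (hG i).galochkin
      refine ⟨C, fun m => ?_⟩
      obtain ⟨d, h1, h2, h3⟩ := hC m
      refine ⟨d, h1, h2, fun s hs i' j' => ?_⟩
      rw [← iter_eq]
      exact h3 s hs i' j') (qu_eq (hG i).regular) δ)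
  refine ⟨c, C, hc, hC, ?_⟩
  intro V hVf hV x N hN
  set E := {t : Fin k → ℕ | (∀ i, x i < t i ∧ t i ≤ x i + N) ∧ ∃ P : MvPolynomial (Σ i, Option (Fin (r i))) ℂ,
      P.totalDegree ≤ δ ∧ (∀ s, P.coeff s ∈ V) ∧ MvPolynomial.aeval (val h t) P = 0 ∧ P ∉ relIdeal δ h t} with hE
  have hfin : E.Finite := by
    refine (Set.finite_Iic (fun i : Fin k => x i + N)).subset ?_
    intro t ht i
    exact (ht.1 i).2
  rw [Set.ncard_eq_toFinset_card E hfin]
  refine hmain V hV x N hN _ fun t ht => ?_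
  have ht' : t ∈ E := hfin.mem_toFinset.1 ht
  obtain ⟨hbox, P, h1, h2, h3, h4⟩ := ht'
  refine ⟨hbox, P, h1, h2, ?_, h4⟩
  rw [← val_eq]
  exact h3

end Pool.Agent.Results.MP_5d33ca_ag.FamilyRelations
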