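import Pool.Agent.Y120.G.Mpl

/-!
# Values of multiple polylogarithms and logarithms of integers: all algebraic relations of bounded degree

The motives behind the numbers are the mixed Tate Nori motives over `ℚ` given by `H^1(G_m, {1, α_1, ..., α_k})` and
by the unipotent path torsors of the projective line minus three points from `0` to `1 / t_i`.
-/

set_option autoImplicit false

namespace Pool.Agent.Results.MP_5d33ca_ag.MixedTate

open Pool.Agent.Y120.GF

/-- the truncated sum `∑_{N > m_1 > ... > m_r ≥ 1} 1 / (m_1^{n_1} ... m_r^{n_r})` -/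
noncomputable def hs : List ℕ → ℕ → ℝ
  | [], _ => 1
  | n :: s, N => ∑ m ∈ Finset.Ico 1 N, hs s m / (m : ℝ) ^ n

/-- the multiple polylogarithm `Li_{n_1, ..., n_r}(x) = ∑_{m_1 > ... > m_r ≥ 1} x^{m_1} / (m_1^{n_1} ... m_r^{n_r})` -/
noncomputable def Li : List ℕ → ℝ → ℝ
  | [], _ => 1
  | n :: s, x => ∑' m : ℕ, x ^ (m + 1) / ((m : ℝ) + 1) ^ n * hs s (m + 1)

/-- an exponent `e ≤ m` and a composition `(n_1, ..., n_r)` of an integer `≤ m` -/
abbrev Idx (m : ℕ) : Type := Fin (m + 1) × (Σ w : Fin (m + 1), Composition w)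

/-- the number `(log t)^e Li_{n_1, ..., n_r}(1/t)` -/
noncomputable def num (m t : ℕ) (b : Idx m) : ℂ := (((Real.log t) ^ (b.1 : ℕ) * Li b.2.2.blocks (1 / t) : ℝ) : ℂ)

/-- the numbers `x_b` satisfy no nontrivial linear relation with coefficients in `V` -/
def Indep {β : Type} [Fintype β] (V : Submodule ℚ ℂ) (x : β → ℂ) : Prop :=
  ∀ v : β → ℂ, (∀ b, v b ∈ V) → ∑ b, v b * x b = 0 → ∀ b, v b = 0

theorem not_indep {β : Type} [Fintype β] {V : Submodule ℚ ℂ} {x : β → ℂ} (h : ¬ Indep V x) : Bad V x := by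
  unfold Indep at h
  push Not at h
  obtain ⟨v, h1, h2, b, hb⟩ := h
  exact ⟨v, h1, fun h0 => hb (congrFun h0 b), h2⟩

theorem indep_not {β : Type} [Fintype β] {V : Submodule ℚ ℂ} {x : β → ℂ} (h : Bad V x) : ¬ Indep V x := by
  obtain ⟨v, h1, h2, h3⟩ := h
  intro hI
  exact h2 (funext fun b => hI v h1 h3 b)

/-- relations can be pushed along an injection of the index sets -/
theorem bad_push {β γ : Type} [Fintype β] [Fintype γ] {V : Submodule ℚ ℂ} {x : β → ℂ} {y : γ → ℂ} (f : β → γ)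
    (hf : Function.Injective f) (hxy : ∀ b, x b = y (f b)) (h : Bad V x) : Bad V y := by
  classical
  obtain ⟨v, h1, h2, h3⟩ := h
  refine ⟨fun c => ∑ b, if f b = c then v b else 0, fun c => Submodule.sum_mem _ fun b _ => ?_, ?_, ?_⟩
  · split_ifs
    · exact h1 b
    · exact Submodule.zero_mem _
  · intro h0
    apply h2
    funext b
    have h4 := congrFun h0 (f b)
    simp only [Pi.zero_apply] at h4
    rw [Finset.sum_eq_single b] at h4
    · simpa using h4
    · intro b' _ hne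
      rw [if_neg]
      intro h5
      exact hne (hf h5)
    · intro h5
      exact absurd (Finset.mem_univ _) h5
  · refine Eq.trans ?_ h3
    simp only [Finset.sum_mul]
    rw [Finset.sum_comm]
    refine Finset.sum_congr rfl fun b _ => ?_
    rw [Finset.sum_eq_single (f b)]
    · rw [if_pos rfl, hxy]
    · intro c _ hne
      rw [if_neg hne.symm, zero_mul]
    · intro h5
      exact absurd (Finset.mem_univ _) h5

/-! ## comparison with the power series -/

/-- lowering all entries by one -/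
def lw (s : List ℕ) : List ℕ := s.map fun n => n - 1

theorem wt_lw (s : List ℕ) (hs : ∀ n ∈ s, 1 ≤ n) : wt (lw s) = s.sum := by
  induction s with
  | nil => rfl
  | cons n s ih =>
    have h1 := hs n (List.mem_cons_self)
    have h2 := ih fun m hm => hs m (List.mem_cons_of_mem _ hm)
    show wt ((n - 1) :: lw s) = _
    rw [wt_cons, h2, List.sum_cons]
    omega

theorem lw_inj {s r : List ℕ} (hs : ∀ n ∈ s, 1 ≤ n) (hr : ∀ n ∈ r, 1 ≤ n) (h : lw s = lw r) : s = r := by
  induction s generalizing r with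
  | nil =>
    rcases r with _ | ⟨m, r⟩
    · rfl
    · simp [lw] at h
  | cons n s ih =>
    rcases r with _ | ⟨m, r⟩
    · simp [lw] at h
    · simp only [lw, List.map_cons, List.cons.injEq] at h
      have h1 := hs n (List.mem_cons_self)
      have h2 := hr m (List.mem_cons_self)
      have h3 : n = m := by omega
      rw [h3, ih (fun a ha => hs a (List.mem_cons_of_mem _ ha)) (fun a ha => hr a (List.mem_cons_of_mem _ ha)) h.2]

theorem sum_cL (s : List ℕ) (hs' : ∀ n ∈ s, 1 ≤ n) (N : ℕ) (hN : 1 ≤ N) :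
    ∑ j ∈ Finset.range N, ((cL (lw s) j : ℚ) : ℝ) = hs s N := by
  induction s generalizing N with
  | nil =>
    simp only [lw, List.map_nil, cL, hs]
    obtain ⟨M, rfl⟩ := Nat.exists_eq_succ_of_ne_zero (by omega : N ≠ 0)
    rw [Finset.sum_range_succ']
    simp
  | cons n s ih =>
    obtain ⟨M, rfl⟩ := Nat.exists_eq_succ_of_ne_zero (by omega : N ≠ 0)
    have h1 := hs' n (List.mem_cons_self)
    have ih' := ih fun m hm => hs' m (List.mem_cons_of_mem _ hm)
    rw [hs, Finset.sum_range_succ']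
    show ∑ j ∈ Finset.range M, ((cL ((n - 1) :: lw s) (j + 1) : ℚ) : ℝ) + ((cL ((n - 1) :: lw s) 0 : ℚ) : ℝ) = _
    rw [cL_zero, Rat.cast_zero, add_zero, Finset.sum_Ico_eq_sum_range]
    simp only [Nat.succ_eq_add_one, Nat.add_sub_cancel]
    refine Finset.sum_congr rfl fun j _ => ?_
    rw [cL, ← ih' (1 + j) (by omega)]
    have h2 : n - 1 + 1 = n := by omega
    rw [h2, show 1 + j = j + 1 by ring]
    push_cast
    rfl

theorem LiR_eq (s : List ℕ) (hs' : ∀ n ∈ s, 1 ≤ n) {x : ℝ} (hx0 : 0 ≤ x) (hx1 : x < 1) : LiR (lw s) x = Li s x := by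
  rcases s with _ | ⟨n, s⟩
  · unfold LiR
    rw [Li, tsum_eq_single 0]
    · simp [lw, cL]
    · intro m hm
      simp [lw, cL, hm]
  · have h1 := hs' n (List.mem_cons_self)
    have hsum : Summable fun m : ℕ => ((cL (lw (n :: s)) m : ℚ) : ℝ) * x ^ m := by
      refine Summable.of_nonneg_of_le (fun m => ?_) (fun m => ?_) (summable_geometric_of_lt_one hx0 hx1)
      · have : (0 : ℝ) ≤ ((cL (lw (n :: s)) m : ℚ) : ℝ) := by exact_mod_cast cL_nonneg _ m
        positivity
      · have : ((cL (lw (n :: s)) m : ℚ) : ℝ) ≤ 1 := by exact_mod_cast cL_le_one _ m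
        calc ((cL (lw (n :: s)) m : ℚ) : ℝ) * x ^ m ≤ 1 * x ^ m := mul_le_mul_of_nonneg_right this (by positivity)
          _ = x ^ m := one_mul _
    unfold LiR
    rw [hsum.tsum_eq_zero_add, Li]
    have h0 : ((cL (lw (n :: s)) 0 : ℚ) : ℝ) * x ^ 0 = 0 := by
      show ((cL ((n - 1) :: lw s) 0 : ℚ) : ℝ) * x ^ 0 = 0
      rw [cL_zero]
      simp
    rw [h0, zero_add]
    refine tsum_congr fun m => ?_
    show ((cL ((n - 1) :: lw s) (m + 1) : ℚ) : ℝ) * x ^ (m + 1) = _
    rw [cL, ← sum_cL s (fun a ha => hs' a (List.mem_cons_of_mem _ ha)) (m + 1) (by omega)]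
    have h2 : n - 1 + 1 = n := by omega
    rw [h2]
    push_cast
    ring

/-- the index map -/
def ix (m : ℕ) (b : Idx m) : Ix m :=
  (b.1, ⟨lw b.2.2.blocks, by
    rw [wt_lw _ fun n hn => b.2.2.blocks_pos hn, b.2.2.blocks_sum]
    exact Nat.lt_succ_iff.1 b.2.1.2⟩)

theorem ix_inj (m : ℕ) : Function.Injective (ix m) := by
  rintro ⟨e, w, c⟩ ⟨e', w', c'⟩ h
  have h1 : e = e' := congrArg Prod.fst h
  have h3 : c.blocks = c'.blocks := by
    have h4 : lw c.blocks = lw c'.blocks := congrArg (fun z : Ix m => z.2.1) h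
    exact lw_inj (fun n hn => c.blocks_pos hn) (fun n hn => c'.blocks_pos hn) h4
  have h5 : w = w' := by
    apply Fin.ext
    rw [← c.blocks_sum, ← c'.blocks_sum, h3]
  subst h5
  rw [h1, Composition.ext h3]

theorem num_eq (m t : ℕ) (ht : 2 ≤ t) (b : Idx m) : num m t b = XX m t (ix m b) := by
  have h1 : (1 : ℝ) / t < 1 := by
    have : (2 : ℝ) ≤ t := by exact_mod_cast ht
    rw [div_lt_one (by linarith)]
    linarith
  rw [num, XX]
  show _ = (((Real.log t) ^ (b.1 : ℕ) * LiR (lw b.2.2.blocks) (1 / t) : ℝ) : ℂ)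
  rw [LiR_eq _ (fun n hn => b.2.2.blocks_pos hn) (by positivity) h1]

theorem prod_eq {k : ℕ} (m : ℕ) (t : Fin k → ℕ) (ht : ∀ i, 2 ≤ t i) (b : Fin k → Idx m) :
    ∏ i, num m (t i) (b i) = ∏ i, XX m (t i) (ix m (b i)) :=
  Finset.prod_congr rfl fun i _ => num_eq m (t i) (ht i) (b i)

/-- the bad tuples -/
theorem bad_tuple {k : ℕ} (m : ℕ) (V : Submodule ℚ ℂ) (t : Fin k → ℕ) (ht : ∀ i, 2 ≤ t i)
    (h : ¬ Indep V fun b : Fin k → Idx m => ∏ i, num m (t i) (b i)) :
    Bad V fun b : Fin k → Ix m => ∏ i, XX m (t i) (b i) := by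
  refine bad_push (fun b i => ix m (b i)) ?_ (fun b => prod_eq m t ht b) (not_indep h)
  intro b b' hbb
  funext i
  exact ix_inj m (congrFun hbb i)

/-- In every box with sides `N` at the position `x`, all but `C N^(k-1) ∑_i (1 + N / (x_i + N)^c)` of the `k`-tuples
of integers `t_i ≥ 2` are such that the products of the numbers `(log t_i)^e Li_s(1 / t_i)`, with `e ≤ m` and `s` of
weight `≤ m`, satisfy no nontrivial linear relation with coefficients in the given `ℚ`-space `V` of complex numbers of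
dimension `≤ D`. -/
theorem result (k m D : ℕ) : ∃ c C : ℝ, 0 < c ∧ 0 ≤ C ∧ ∀ V : Submodule ℚ ℂ, Module.Finite ℚ V →
    Module.finrank ℚ V ≤ D → ∀ (x : Fin k → ℕ) (N : ℕ), 1 ≤ N →
    (({t : Fin k → ℕ | (∀ i, 2 ≤ t i ∧ x i < t i ∧ t i ≤ x i + N) ∧
      ¬ Indep V fun b : Fin k → Idx m => ∏ i, num m (t i) (b i)}.ncard : ℕ) : ℝ) ≤
      C * (N : ℝ) ^ (k - 1) * ∑ i, (1 + N / ((x i : ℝ) + N) ^ c) := by
  classical
  obtain ⟨c, C, hc, hC, h⟩ := count_k (XX m) (one_XX m) D k
  refine ⟨c, C, hc, hC, ?_⟩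
  intro V hVf hV x N hN
  set A := {t : Fin k → ℕ | (∀ i, 2 ≤ t i ∧ x i < t i ∧ t i ≤ x i + N) ∧
      ¬ Indep V fun b : Fin k → Idx m => ∏ i, num m (t i) (b i)} with hA
  have hfin : A.Finite := by
    refine (Set.finite_Iic (fun i : Fin k => x i + N)).subset ?_
    intro t ht i
    exact (ht.1 i).2.2
  rw [Set.ncard_eq_toFinset_card A hfin]
  refine h V hV x N hN _ fun t ht => ?_
  have ht' : t ∈ A := hfin.mem_toFinset.1 ht
  exact ⟨fun i => (ht'.1 i).2, bad_tuple m V t (fun i => (ht'.1 i).1) ht'.2⟩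

end Pool.Agent.Results.MP_5d33ca_ag.MixedTate
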