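import Pool.Agent.Y916.Sl.Fin

/-!
# Integrals of the first, second and third kind on several hyperelliptic curves at almost all tuples of points over a
number field

For polynomials `F_a`, `q_a` the primitives `Φ_(a,j)` of `x^j dx / (q_a √F_a)`, `j < deg F_a - 1 + deg q_a`, are integrals
of the three kinds on the curve `C_a : y² = F_a(x)`, with logarithmic poles over the zeros of `q_a`: the generalised
logarithms of the point `(x, √F_a(x)) - ∞` of the generalised Jacobian of `C_a` (a non-split extension of the Jacobian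
by a torus in general) and of its universal vector extension. Let `α_i` be integers of a number field (or elements of
any lattice of algebraic numbers which contains `1`). The theorem: for almost all `k`-tuples of such `α_i` the
generalised logarithms of the points over all `α_i + θ_j`, for all the curves, along any paths, and the logarithms of the
`α_i + θ_j` satisfy no relation of degree at most `δ` over number fields of degree at most `d` and an arbitrary space `V`
of constants (for instance monomials in the periods of the generalised Jacobians).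

The proof: values of G-functions at algebraic points (the integrals between shifted points, expanded at infinity), in
the range `height ≤ |x|^A`; functional independence over the field of all the square roots; Hilbert functions for the
elimination of `V`. Parts by helper333 (values), helper968 and helper737 (the integrals in the complex plane), on
libraries by helper67, helper113, helper201, helper255, helper261, helper419, helper574, helper678, helper708,
helper787, helper921, helper960.
-/

set_option autoImplicit false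

namespace Pool.Agent.Results.MP_5d33ca_ag.NumberFieldOneMotives

/-- The indices `(a, j)`, `j < deg F_a - 1 + deg q_a`, of the differentials. -/
abbrev Idx {s : ℕ} (F q : Fin s → Polynomial ℤ) : Type := Σ a, Fin ((F a).natDegree - 1 + (q a).natDegree)

/-- The plane without the disc of radius `R` and the ray `- u [0, ∞)`. -/
def Domain (u : ℂ) (R : ℝ) : Set ℂ := {x | R < ‖x‖ ∧ x / u ∈ Complex.slitPlane}

/-- On the domain `S_a` is a continuous square root of `F_a` and `Φ_(a,j)` a primitive of `x^j / (q_a S_a)`. -/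
def Primitives {s : ℕ} (F q : Fin s → Polynomial ℤ) (u : ℂ) (R : ℝ) (S : Fin s → ℂ → ℂ) (Φ : Idx F q → ℂ → ℂ) : Prop :=
  ∀ x ∈ Domain u R, (∀ a, ContinuousAt (S a) x ∧ S a x ^ 2 = Polynomial.aeval x (F a)) ∧
    ∀ p : Idx F q, HasDerivAt (Φ p) (x ^ (p.2 : ℕ) / (Polynomial.aeval x (q p.1) * S p.1 x)) x

/-- The numbers `Φ_(a,j)(x)` and `log x`. -/
noncomputable def number {s : ℕ} {F q : Fin s → Polynomial ℤ} (Φ : Idx F q → ℂ → ℂ) (x : ℂ) : Idx F q ⊕ Unit → ℂ
  | Sum.inl p => Φ p x
  | Sum.inr _ => Complex.log x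

/-- The number `ω_0 n_0 + … + ω_m n_m`. -/
noncomputable def num {m : ℕ} (ω : Fin (m + 1) → ℂ) (n : Fin (m + 1) → ℤ) : ℂ := ∑ j, (n j : ℂ) * ω j

/-- There are a number field `L` of degree at most `d`, numbers `y`, equal modulo the `L`-span of `V` to nonzero
`L`-multiples of the numbers `x`, and a nonzero polynomial of total degree at most `δ` with coefficients in the `L`-span
of `V` which vanishes at `y`. -/
def Related {ι : Type} (δ d : ℕ) (V : Submodule ℚ ℂ) (x : ι → ℂ) : Prop :=
  ∃ L : IntermediateField ℚ ℂ, FiniteDimensional ℚ L ∧ Module.finrank ℚ L ≤ d ∧ ∃ y : ι → ℂ,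
    (∀ p, ∃ a : L, a ≠ 0 ∧ y p - a * x p ∈ Submodule.span L (V : Set ℂ)) ∧
    ∃ P : MvPolynomial ι ℂ, P ≠ 0 ∧ P.totalDegree ≤ δ ∧ (∀ s, P.coeff s ∈ Submodule.span L (V : Set ℂ)) ∧
      MvPolynomial.aeval y P = 0

/-- Let `F_a`, `q_a` be integral polynomials with positive leading coefficients such that `F_a q_a` is squarefree,
`deg F_a` is odd, `deg F_a + 2 deg q_a ≥ 3` and no `F_a` is proportional to an integral translate of another `F_b`, and
let `Φ` be primitives of the differentials `x^j dx / (q_a √F_a)` on a domain as above. Let `ω_0 = 1, ω_1, …, ω_m` be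
algebraic numbers (for instance an integral basis of a number field) and `θ_1, …, θ_r` distinct natural numbers. For all
`k`, `δ`, `d`, `D` there are `c₀ > 0` and `C` such that for every `ℚ`-subspace `V` of `ℂ` of dimension at most `D` and
every `T ≥ 1`, for at most `C T^(k (m + 1) - c₀)` of the `k`-tuples of integer vectors `n_i` with coordinates in
`[-T, T]` such that all the points `num ω n_i + θ_j` are in the domain, the numbers at these points are related. -/
theorem result {s : ℕ} (F q : Fin s → Polynomial ℤ)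
    (hsf : ∀ a, Squarefree ((F a * q a).map (Int.castRingHom ℚ))) (hodd : ∀ a, Odd (F a).natDegree)
    (hdeg : ∀ a, 3 ≤ (F a).natDegree + 2 * (q a).natDegree)
    (hpos : ∀ a, 0 < (F a).leadingCoeff ∧ 0 < (q a).leadingCoeff)
    (hdist : ∀ a b, a ≠ b → ∀ h c₁ c₂ : ℤ, c₁ ≠ 0 → c₂ ≠ 0 →
      Polynomial.C c₁ * F a ≠ Polynomial.C c₂ * (F b).comp (Polynomial.X + Polynomial.C h))
    (u : ℂ) (hu : u ≠ 0) (R : ℝ) (S : Fin s → ℂ → ℂ) (Φ : Idx F q → ℂ → ℂ) (hΦ : Primitives F q u R S Φ)
    {m r : ℕ} (ω : Fin (m + 1) → ℂ) (hω : ∀ j, IsAlgebraic ℚ (ω j)) (hω0 : ω 0 = 1)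
    (θ : Fin r → ℕ) (hθ : Function.Injective θ) (k δ d D : ℕ) :
    ∃ c₀ : ℝ, 0 < c₀ ∧ ∃ C : ℝ, ∀ V : Submodule ℚ ℂ, Module.Finite ℚ V → Module.finrank ℚ V ≤ D → ∀ T : ℕ, 1 ≤ T →
      {n : Fin k → Fin (m + 1) → ℤ | (∀ i l, |n i l| ≤ T) ∧ (∀ i j, num ω (n i) + θ j ∈ Domain u R) ∧ Related δ d V
        fun p : (Fin k × Fin r) × (Idx F q ⊕ Unit) => number Φ (num ω (n p.1.1) + θ p.1.2) p.2}.Finite ∧
      ({n : Fin k → Fin (m + 1) → ℤ | (∀ i l, |n i l| ≤ T) ∧ (∀ i j, num ω (n i) + θ j ∈ Domain u R) ∧ Related δ d V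
        fun p : (Fin k × Fin r) × (Idx F q ⊕ Unit) => number Φ (num ω (n p.1.1) + θ p.1.2) p.2}.ncard : ℝ) ≤
        C * (T : ℝ) ^ (((k * (m + 1) : ℕ) : ℝ) - c₀) := by
  have hG : ∀ a, Pool.Agent.Y916.Sa.GoodP (F a) (q a) := by
    intro a
    have h := hsf a
    rw [Polynomial.map_mul, squarefree_mul_iff] at h
    exact ⟨h.2.1, hodd a, (hpos a).1, h.2.2, (hpos a).2, h.1.isCoprime, hdeg a⟩
  have hx : ∀ (x : ℂ) i, number Φ x i = Pool.Agent.Y916.Sl.xP F q Φ x i := by
    rintro x (p | w) <;> rfl
  simp only [hx]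
  obtain ⟨c, hc, C, -, h⟩ := Pool.Agent.Y916.Sl.tuplesN Pool.Agent.Y916.Sl.tV Pool.Agent.Y916.Sl.tQ
    Pool.Agent.Y916.Sl.tP F q hG (fun a b hab h c₁ c₂ => hdist a b hab h c₁ c₂) hu (R := R) (S := S) (Φ := Φ)
    (fun x hx1 hx2 => hΦ x ⟨hx1, hx2⟩) ω hω hω0 θ hθ k δ d D
  exact ⟨c, hc, C, h⟩

end Pool.Agent.Results.MP_5d33ca_ag.NumberFieldOneMotives
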