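import Pool.Agent.Y776.Fam.Main
import Pool.Agent.TH813.EKPer

/-!
# The period conjecture in families of 1-motives, over all number fields and relative to an arbitrary motive

Let `E_z : y² = 4 x³ - g₂(z) x - g₃(z)` be a family of elliptic curves whose invariants are algebraic functions of `z`
and whose `j` is not constant, let `P_1, …, P_r` be algebraic sections which are independent modulo torsion, and let
`a_1, …, a_s` be algebraic functions which are multiplicatively independent modulo constants. The periods of the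
1-motives `[ℤ^a → G]`, with `G` an extension of a power of `E_z` by a torus, which are built from these data are
polynomials in `2 π i`, the periods `ω₁, ω₂` and the quasi-periods `η₁, η₂` of `E_z`, the elliptic logarithms `u_i` of
`P_i`, the numbers `ζ(u_i)` (integrals of the second kind), the logarithms `l_k` of `a_k`, and logarithms of `σ(N u)`
with `N u = ∑ N_i u_i`, `N_i ∈ ℤ` (integrals of the third kind). Here `η₂` is determined by the others (Legendre). The
conjecture for a motive `M` and for the sum of `M` and these 1-motives at `n` points `z_1, …, z_n` says that in general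
the `n (3 + 2 r + s + q)` numbers below are algebraically independent over the field of the periods of `M`. The numbers
`ξ_1, …, ξ_g` below are arbitrary, for instance the monomials up to a given degree in the periods of `M`.
-/

set_option autoImplicit false

open NumberField
open scoped PeriodPair

namespace Pool.Agent.Results.MP_5d33ca_ag.OneMotiveFamilies

/-- The Weierstrass zeta function `ζ(z) = ∑ (1/(z-l) + 1/l + z/l²)`, the sum over the lattice (the summand of `l = 0` is
`1/z`, since `1/0 = 0` in Lean). -/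
noncomputable def ζ (L : PeriodPair) (z : ℂ) : ℂ :=
  ∑' l : L.lattice, (1 / (z - l) + 1 / l + z / l ^ 2)

/-- The Weierstrass sigma function `σ(z) = z ∏ (1 - z/l) exp(z/l + z²/(2 l²))`, the product over the lattice (the factor
of `l = 0` is `1`, since `z/0 = 0` in Lean). -/
noncomputable def σ (L : PeriodPair) (z : ℂ) : ℂ :=
  z * ∏' l : L.lattice, ((1 - z / l) * Complex.exp (z / l + (z / l) ^ 2 / 2))

/-- The function `f` is algebraic over `ℂ(z)` on the set `U`. -/
def Algebraic (U : Set ℂ) (f : ℂ → ℂ) : Prop :=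
  ∃ P : MvPolynomial (Fin 2) ℂ, P ≠ 0 ∧ ∀ z ∈ U, MvPolynomial.eval ![z, f z] P = 0

/-- A family of elliptic curves `ℂ / Λ_z` with points `P_i = (℘(u_i), ℘'(u_i))`, with algebraic functions `exp(l_k)`, and
with branches `S_k` of `log σ(∑ N_ki u_i)`. -/
structure Family (U : Set ℂ) (Λ : ℂ → PeriodPair) {r s q : ℕ} (u : Fin r → ℂ → ℂ) (l : Fin s → ℂ → ℂ)
    (N : Fin q → Fin r → ℤ) (S : Fin q → ℂ → ℂ) : Prop where
  isOpen : IsOpen U
  isPreconnected : IsPreconnected U
  /-- the lattice depends analytically on `z` -/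
  analytic₁ : AnalyticOnNhd ℂ (fun z => (Λ z).ω₁) U
  analytic₂ : AnalyticOnNhd ℂ (fun z => (Λ z).ω₂) U
  /-- the invariants are algebraic functions -/
  algebraic₂ : Algebraic U (fun z => (Λ z).g₂)
  algebraic₃ : Algebraic U (fun z => (Λ z).g₃)
  /-- `j` is not constant: `g₂³` and `g₃²` are linearly independent -/
  nonconstant : ∀ a b : ℂ, (∀ z ∈ U, a * (Λ z).g₂ ^ 3 = b * (Λ z).g₃ ^ 2) → a = 0 ∧ b = 0
  /-- the points are given by analytic functions `u_i`; they are not zero and their coordinates are algebraic -/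
  point : ∀ i, AnalyticOnNhd ℂ (u i) U
  point_ne : ∀ i, ∀ z ∈ U, u i z ∉ (Λ z).lattice
  point_alg : ∀ i, Algebraic U (fun z => ℘[Λ z] (u i z))
  /-- the points are independent modulo torsion -/
  point_ind : ∀ n : Fin r → ℤ, (∀ z ∈ U, ∑ i, (n i : ℂ) * u i z ∈ (Λ z).lattice) → n = 0
  /-- the functions `exp(l_k)` are algebraic -/
  log : ∀ k, AnalyticOnNhd ℂ (l k) U
  log_alg : ∀ k, Algebraic U (fun z => Complex.exp (l k z))
  /-- they are multiplicatively independent modulo constants -/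
  log_ind : ∀ (n : Fin s → ℤ) (c : ℂ), (∀ z ∈ U, ∑ k, (n k : ℂ) * l k z = c) → n = 0
  /-- `S_k` is a logarithm of `σ(∑ N_ki u_i)` -/
  sigma : ∀ k, AnalyticOnNhd ℂ (S k) U
  sigma_exp : ∀ k, ∀ z ∈ U, Complex.exp (S k z) = σ (Λ z) (∑ i, (N k i : ℂ) * u i z)
  /-- the quadratic forms `(∑ N_ki X_i)²` are linearly independent -/
  sigma_ind : ∀ c : Fin q → ℤ, (∀ i j, ∑ k, c k * (N k i * N k j) = 0) → c = 0

/-- The numbers `ω₁, ω₂, η₁ = 2 ζ(ω₁ / 2), u_i, ζ(u_i), l_k, S_k` at the point `z`. -/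
noncomputable def periods (Λ : ℂ → PeriodPair) {r s q : ℕ} (u : Fin r → ℂ → ℂ) (l : Fin s → ℂ → ℂ)
    (S : Fin q → ℂ → ℂ) (z : ℂ) : Fin 3 ⊕ (Fin r ⊕ (Fin r ⊕ (Fin s ⊕ Fin q))) → ℂ :=
  Sum.elim ![(Λ z).ω₁, (Λ z).ω₂, 2 * ζ (Λ z) ((Λ z).ω₁ / 2)] (Sum.elim (fun i => u i z)
    (Sum.elim (fun i => ζ (Λ z) (u i z)) (Sum.elim (fun k => l k z) (fun k => S k z))))

/-- The elements of the number field `F` with image in `K` which are quotients of two integers of `F` all of whose
conjugates have absolute value at most `T`. -/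
def Points (F : Type) [Field F] [NumberField F] (ι : F →+* ℂ) (K : Set ℂ) (T : ℝ) : Set F :=
  {x | ι x ∈ K ∧ ∃ a b : 𝓞 F, b ≠ 0 ∧ (∀ φ : F →+* ℂ, ‖φ a‖ ≤ T ∧ ‖φ b‖ ≤ T) ∧ x = a / b}

/-- The `n`-tuples `t` of points of `F` for which there is a polynomial `P` of degree at most `d` in each variable, with
coefficients of the form `∑ ξ_i ι(c_i)`, where the `c_i` are integers of `F` all of whose conjugates have absolute value
at most `T ^ A`, such that the value of `P` at the numbers `v (ι (t j)) i` is at most `T ^ (-B)` times the absolute value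
of some nonzero coefficient of `P`. -/
def Exceptional (n d : ℕ) {g : ℕ} {J : Type} (v : ℂ → J → ℂ) (F : Type) [Field F] [NumberField F] (ι : F →+* ℂ)
    (ξ : Fin g → ℂ) (K : Set ℂ) (A B T : ℝ) : Set (Fin n → F) :=
  {t | (∀ j, t j ∈ Points F ι K T) ∧ ∃ P : MvPolynomial (Fin n × J) ℂ, (∀ x, P.degreeOf x ≤ d) ∧
    (∀ s, ∃ c : Fin g → 𝓞 F, (∀ i (φ : F →+* ℂ), ‖φ (c i)‖ ≤ T ^ A) ∧ P.coeff s = ∑ i, ξ i * ι (c i)) ∧
    ∃ s₀, P.coeff s₀ ≠ 0 ∧
      ‖MvPolynomial.aeval (fun x : Fin n × J => v (ι (t x.1)) x.2) P‖ ≤ T ^ (-B) * ‖P.coeff s₀‖}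

/-- For a family over `U`, a compact subset `K` of `U`, and all `m`, `n`, `g`, `d`, `A` and `ε > 0` there are `B`, `C`,
`T₀` such that for every number field `F` of degree at most `m`, every embedding of `F` in `ℂ`, all complex numbers
`ξ_1, …, ξ_g` and all `T ≥ T₀` the number of exceptional `n`-tuples is at most `C T^ε N^(n - 1)`, where `N` is the number
of points. -/
theorem result {r s q : ℕ} (U : Set ℂ) (Λ : ℂ → PeriodPair) (u : Fin r → ℂ → ℂ) (l : Fin s → ℂ → ℂ)
    (N : Fin q → Fin r → ℤ) (S : Fin q → ℂ → ℂ) (hU : Family U Λ u l N S) (K : Set ℂ) (hK : IsCompact K)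
    (hKU : K ⊆ U) (m n g d : ℕ) (A ε : ℝ) (hε : 0 < ε) :
    ∃ B C T₀ : ℝ, ∀ (F : Type) [Field F] [NumberField F], Module.finrank ℚ F ≤ m → ∀ (ι : F →+* ℂ) (ξ : Fin g → ℂ)
      (T : ℝ), T₀ ≤ T → (Exceptional n d (periods Λ u l S) F ι ξ K A B T).Finite ∧
        ((Exceptional n d (periods Λ u l S) F ι ξ K A B T).ncard : ℝ) ≤
          C * T ^ ε * ((Points F ι K T).ncard : ℝ) ^ (n - 1) := by
  classical
  have hF : Y776.Fam.Fm U Λ u l N S :=
    { isOpen := hU.isOpen, conn := hU.isPreconnected, an₁ := hU.analytic₁, an₂ := hU.analytic₂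
      ni := hU.nonconstant, ag2 := hU.algebraic₂, ag3 := hU.algebraic₃, ua := hU.point, un := hU.point_ne
      uw := hU.point_alg, ui := hU.point_ind, la := hU.log, le := hU.log_alg, li := hU.log_ind
      Sa := hU.sigma, Se := hU.sigma_exp, Ni := hU.sigma_ind }
  obtain ⟨B, C, T₀, hC, hT₀, H⟩ := Y776.Fam.fam_NF (η := Fin g) m n d hF hK hKU A ε hε
  refine ⟨B, C, T₀, fun F _ _ hm ι ξ T hT => ?_⟩
  have hv : (fun t i => Y776.Fam.yfam Λ u l S i t) = periods Λ u l S := by
    funext t i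
    rcases i with j | i | i | k | k
    · fin_cases j
      · rfl
      · rfl
      · exact Pool.Agent.TH813.Ell.eta_half (Λ t).ω₁_mem_lattice (Pool.Agent.TH813.Ell.half₁ (Λ t))
    all_goals rfl
  have hT0 : 0 ≤ T := by linarith
  have hP : Points F ι K T = {x : F | Y120.HtLe F T x ∧ ι x ∈ K} := by
    ext x
    constructor
    · rintro ⟨h1, a, b, hb, hab, hx⟩
      exact ⟨⟨a, b, hb, Y120.house_le F hT0 fun φ => (hab φ).1, Y120.house_le F hT0 fun φ => (hab φ).2, hx⟩, h1⟩
    · rintro ⟨⟨a, b, hb, ha, hb', hx⟩, h1⟩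
      exact ⟨h1, a, b, hb, fun φ => ⟨(Y120.house_ge F _ φ).trans ha, (Y120.house_ge F _ φ).trans hb'⟩, hx⟩
  have hsub : Exceptional n d (periods Λ u l S) F ι ξ K A B T ⊆ Y124.ExcNF n d F ι ξ (periods Λ u l S) K A B T := by
    rintro t ⟨ht, P, hPd, hPc, s₀, hs₀, hs⟩
    refine ⟨fun j => ?_, P, hPd, hPc, s₀, hs₀, hs⟩
    have h1 := ht j
    rw [hP] at h1
    exact h1
  obtain ⟨h1, h2⟩ := H F hm ι ξ T hT
  rw [hv] at h1 h2
  refine ⟨h1.subset hsub, ?_⟩
  rw [hP]
  exact le_trans (by exact_mod_cast Set.ncard_le_ncard hsub h1) h2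

end Pool.Agent.Results.MP_5d33ca_ag.OneMotiveFamilies
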